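import Pool.Agent.Run7.h951.BG.Stm

/-!
# Project BG, piece BFX: the extremal property of Bergman functions
-/

set_option autoImplicit false

open MeasureTheory Filter Topology Polynomial

namespace Pool.Agent.Run7.h951.BG

namespace Bfx

lemma integ_of_cont {F : Type*} [NormedAddCommGroup F] (ν : Measure ℂ) (hfin : IsFiniteMeasure ν)
    (hsph : ν (Metric.sphere (0 : ℂ) 1)ᶜ = 0) (f : ℂ → F) (hf : Continuous f) :
    Integrable f ν := by
  obtain ⟨C, hC⟩ := (isCompact_sphere (0 : ℂ) 1).exists_bound_of_continuousOn hf.continuousOn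
  refine Integrable.of_bound hf.aestronglyMeasurable C ?_
  have h1 : ∀ᵐ z ∂ν, z ∈ Metric.sphere (0 : ℂ) 1 := by
    rw [ae_iff]; exact hsph
  filter_upwards [h1] with z hz using hC z hz

lemma eval_cont (p : ℂ[X]) : Continuous (fun z : ℂ => p.eval z) := p.continuous

lemma norm_sq_comb (ν : Measure ℂ) (hfin : IsFiniteMeasure ν)
    (hsph : ν (Metric.sphere (0 : ℂ) 1)ᶜ = 0) {m : ℕ} (e : Fin m → ℂ[X]) (he : IsOrtho ν e)
    (c : Fin m → ℂ) :
    ∫ z, ‖(∑ i, c i • e i).eval z‖ ^ 2 ∂ν = ∑ i, ‖c i‖ ^ 2 := by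
  apply Complex.ofReal_injective
  rw [← integral_complex_ofReal]
  have h1 : ∀ z : ℂ, ((‖(∑ i, c i • e i).eval z‖ ^ 2 : ℝ) : ℂ) =
      ∑ i, ∑ j, (c i * (starRingEnd ℂ) (c j)) *
        ((e i).eval z * (starRingEnd ℂ) ((e j).eval z)) := by
    intro z
    rw [Complex.ofReal_pow, ← Complex.mul_conj']
    rw [Polynomial.eval_finsetSum, map_sum, Finset.sum_mul_sum]
    refine Finset.sum_congr rfl fun i _ => Finset.sum_congr rfl fun j _ => ?_
    rw [Polynomial.eval_smul, Polynomial.eval_smul, smul_eq_mul, smul_eq_mul, map_mul]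
    ring
  have hint : ∀ i j, Integrable (fun z => (c i * (starRingEnd ℂ) (c j)) *
      ((e i).eval z * (starRingEnd ℂ) ((e j).eval z))) ν := by
    intro i j
    apply integ_of_cont ν hfin hsph
    exact continuous_const.mul ((eval_cont _).mul (Complex.continuous_conj.comp (eval_cont _)))
  have h2 : (fun z : ℂ => ((‖(∑ i, c i • e i).eval z‖ ^ 2 : ℝ) : ℂ)) = fun z =>
      ∑ i, ∑ j, (c i * (starRingEnd ℂ) (c j)) *
        ((e i).eval z * (starRingEnd ℂ) ((e j).eval z)) := funext h1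
  rw [h2, integral_finsetSum _ (fun i _ => integrable_finsetSum _ fun j _ => hint i j)]
  rw [Complex.ofReal_sum]
  refine Finset.sum_congr rfl fun i _ => ?_
  rw [integral_finsetSum _ (fun j _ => hint i j)]
  have h3 : ∀ j, ∫ z, (c i * (starRingEnd ℂ) (c j)) *
      ((e i).eval z * (starRingEnd ℂ) ((e j).eval z)) ∂ν =
        if i = j then c i * (starRingEnd ℂ) (c j) else 0 := by
    intro j
    rw [integral_const_mul, he i j]
    split_ifs <;> simp
  rw [Finset.sum_congr rfl fun j _ => h3 j, Finset.sum_ite_eq, if_pos (Finset.mem_univ i),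
    Complex.mul_conj', Complex.ofReal_pow]

end Bfx

open Bfx in
theorem t_BFX : S_BFX := by
  intro ν hfin hsph m e he
  have hone : ∀ i, ∫ z, ‖(e i).eval z‖ ^ 2 ∂ν = 1 := by
    intro i
    have h1 := norm_sq_comb ν hfin hsph e he (Pi.single i 1)
    have h2 : ∑ l, (Pi.single i (1 : ℂ) : Fin m → ℂ) l • e l = e i := by
      rw [Finset.sum_eq_single i]
      · simp
      · intro l _ hl
        rw [Pi.single_eq_of_ne hl, zero_smul]
      · intro h; exact absurd (Finset.mem_univ i) h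
    have h3 : ∑ l, ‖(Pi.single i (1 : ℂ) : Fin m → ℂ) l‖ ^ 2 = 1 := by
      rw [Finset.sum_eq_single i]
      · simp
      · intro l _ hl
        rw [Pi.single_eq_of_ne hl]; simp
      · intro h; exact absurd (Finset.mem_univ i) h
    rw [h2, h3] at h1
    exact h1
  refine ⟨?_, ?_, ?_, ?_⟩
  · unfold BF
    have hi : ∀ i ∈ (Finset.univ : Finset (Fin m)),
        Integrable (fun z => ‖(e i).eval z‖ ^ 2) ν :=
      fun i _ => integ_of_cont ν hfin hsph _ ((eval_cont (e i)).norm.pow 2)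
    rw [integral_finsetSum _ hi]
    rw [Finset.sum_congr rfl fun i _ => hone i]
    simp
  · rw [Fintype.linearIndependent_iff]
    intro g hg i
    have h1 := norm_sq_comb ν hfin hsph e he g
    rw [hg] at h1
    simp only [eval_zero, norm_zero, ne_eq, OfNat.ofNat_ne_zero, not_false_eq_true, zero_pow,
      integral_zero] at h1
    have h2 := (Finset.sum_eq_zero_iff_of_nonneg (fun i _ => sq_nonneg ‖g i‖)).1 h1.symm i
      (Finset.mem_univ i)
    simpa using h2
  · intro p hp z
    obtain ⟨c, rfl⟩ := (Submodule.mem_span_range_iff_exists_fun ℂ).1 hp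
    rw [norm_sq_comb ν hfin hsph e he c, Polynomial.eval_finsetSum]
    unfold BF
    have h1 : ‖∑ i, (c i • e i).eval z‖ ≤ ∑ i, ‖(e i).eval z‖ * ‖c i‖ := by
      refine (norm_sum_le _ _).trans (le_of_eq ?_)
      refine Finset.sum_congr rfl fun i _ => ?_
      rw [Polynomial.eval_smul, smul_eq_mul, norm_mul, mul_comm]
    calc ‖∑ i, (c i • e i).eval z‖ ^ 2 ≤ (∑ i, ‖(e i).eval z‖ * ‖c i‖) ^ 2 :=
          pow_le_pow_left₀ (norm_nonneg _) h1 2
      _ ≤ (∑ i, ‖(e i).eval z‖ ^ 2) * ∑ i, ‖c i‖ ^ 2 :=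
          Finset.sum_mul_sq_le_sq_mul_sq _ _ _
  · intro z
    refine ⟨∑ i, (starRingEnd ℂ) ((e i).eval z) • e i,
      (Submodule.mem_span_range_iff_exists_fun ℂ).2 ⟨_, rfl⟩, ?_, ?_⟩
    · unfold BF
      rw [Polynomial.eval_finsetSum, Complex.ofReal_sum]
      refine Finset.sum_congr rfl fun i _ => ?_
      rw [Polynomial.eval_smul, smul_eq_mul, mul_comm, Complex.mul_conj', Complex.ofReal_pow]
    · rw [norm_sq_comb ν hfin hsph e he]
      unfold BF
      refine Finset.sum_congr rfl fun i _ => ?_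
      rw [RCLike.norm_conj]

end Pool.Agent.Run7.h951.BG
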