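import Pool.Agent.Run7.h951.BG.Stm

/-!
# Project BG, piece NW: the weak asymptotics fail
-/

set_option autoImplicit false

open MeasureTheory Filter Topology Polynomial

namespace Pool.Agent.Run7.h951.BG

namespace Nw

/-- an orthonormal family of the right size spans the polynomials of degree at most `k` -/
lemma span_of_deg {k : ℕ} (e : Fin (k + 1) → ℂ[X]) (hdeg : ∀ i, (e i).natDegree ≤ k)
    (hli : LinearIndependent ℂ e) (p : ℂ[X]) (hp : p.natDegree ≤ k) :
    p ∈ Submodule.span ℂ (Set.range e) := by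
  have hmem : ∀ q : ℂ[X], q.natDegree ≤ k → q ∈ degreeLT ℂ (k + 1) := by
    intro q hq
    rw [Polynomial.mem_degreeLT]
    refine lt_of_le_of_lt q.degree_le_natDegree ?_
    exact_mod_cast Nat.lt_succ_of_le hq
  have hle : Submodule.span ℂ (Set.range e) ≤ degreeLT ℂ (k + 1) := by
    rw [Submodule.span_le]
    rintro _ ⟨i, rfl⟩
    exact hmem _ (hdeg i)
  have hfd : FiniteDimensional ℂ (degreeLT ℂ (k + 1)) :=
    Module.Finite.equiv (degreeLTEquiv ℂ (k + 1)).symm
  have h1 : Module.finrank ℂ (degreeLT ℂ (k + 1)) = k + 1 := by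
    rw [(degreeLTEquiv ℂ (k + 1)).finrank_eq, Module.finrank_fin_fun]
  have h2 : Module.finrank ℂ (Submodule.span ℂ (Set.range e)) = k + 1 := by
    rw [finrank_span_eq_card hli, Fintype.card_fin]
  have h3 := Submodule.eq_of_le_of_finrank_eq hle (h2.trans h1.symm)
  rw [h3]
  exact hmem p hp

end Nw

open Nw in
theorem t_NW : S_ROOT → S_BFX → S_NW := by
  intro hR hBFX ν hν B hB
  obtain ⟨hmem, -, -, -, -, -⟩ := hR
  obtain ⟨hfin, hsph, hat, htail, -⟩ := hν
  have key : ∀ j : ℕ, Real.log 2 / 2 * 2 ^ j ≤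
      (2 * ((2 ^ j : ℕ) : ℝ))⁻¹ * Real.log (B (2 ^ j) 0) := by
    intro j
    obtain ⟨e, hdeg, hortho, hBe⟩ := hB (2 ^ j)
    obtain ⟨-, hli, hext, -⟩ := hBFX ν hfin hsph _ e hortho
    set p : ℂ[X] := X ^ (2 ^ j) - 1 with hp
    have hpdeg : p.natDegree ≤ 2 ^ j := by
      rw [hp]
      refine (Polynomial.natDegree_sub_le _ _).trans ?_
      simp
    have h1 := hext p (span_of_deg e hdeg hli p hpdeg) 0
    have h2 : ‖p.eval 0‖ ^ 2 = 1 := by
      rw [hp]
      simp
    set I : ℝ := ∫ w, ‖p.eval w‖ ^ 2 ∂ν with hI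
    have hms : MeasurableSet ((Rt j : Set ℂ))ᶜ := (Rt j).measurableSet.compl
    have hI0 : 0 ≤ I := integral_nonneg fun w => sq_nonneg _
    have hI1 : I ≤ 8 * cw (j + 1) := by
      have h3 : I ≤ ∫ w, ((Rt j : Set ℂ))ᶜ.indicator (fun _ => (4 : ℝ)) w ∂ν := by
        refine integral_mono_of_nonneg (Filter.Eventually.of_forall fun w => sq_nonneg _)
          ((integrable_const (4 : ℝ)).indicator hms) ?_
        have h4 : ∀ᵐ z ∂ν, z ∈ Metric.sphere (0 : ℂ) 1 := by
          rw [ae_iff]; exact hsph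
        filter_upwards [h4] with z hz
        have hz1 : ‖z‖ = 1 := by simpa using hz
        have h5 : p.eval z = z ^ (2 ^ j) - 1 := by rw [hp]; simp
        by_cases hzR : z ∈ (Rt j : Set ℂ)
        · have h6 : z ^ (2 ^ j) = 1 := (hmem j z).1 hzR
          rw [Set.indicator_of_notMem (Set.notMem_compl_iff.2 hzR), h5, h6]
          simp
        · rw [Set.indicator_of_mem hzR, h5]
          have h7 : ‖z ^ (2 ^ j) - 1‖ ≤ 2 := by
            refine (norm_sub_le _ _).trans ?_
            rw [norm_pow, hz1]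
            norm_num
          have h8 : 0 ≤ ‖z ^ (2 ^ j) - 1‖ := norm_nonneg _
          nlinarith
      rw [integral_indicator_const _ hms, smul_eq_mul] at h3
      have h4 := htail j
      linarith
    set b : ℝ := B (2 ^ j) 0 with hb
    rw [h2, ← hBe 0] at h1
    have hb0 : 0 < b := by
      by_contra hcon
      push Not at hcon
      have : b * I ≤ 0 := mul_nonpos_of_nonpos_of_nonneg hcon hI0
      linarith
    have h3 : 1 ≤ b * (8 * cw (j + 1)) :=
      h1.trans (mul_le_mul_of_nonneg_left hI1 hb0.le)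
    have h4 : 0 ≤ Real.log (b * (8 * cw (j + 1))) := Real.log_nonneg h3
    have hcw : 0 < cw (j + 1) := by unfold cw; positivity
    rw [Real.log_mul hb0.ne' (by positivity), Real.log_mul (by norm_num) hcw.ne'] at h4
    have h5 : Real.log 8 = 3 * Real.log 2 := by
      rw [show (8 : ℝ) = 2 ^ 3 by norm_num, Real.log_pow]; norm_num
    have h6 : Real.log (cw (j + 1)) = -((4 : ℝ) ^ (j + 1) * Real.log 2) := by
      unfold cw
      rw [Real.log_pow, one_div, Real.log_inv]
      push_cast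
      ring
    rw [h5, h6] at h4
    have hl2 : 0 < Real.log 2 := Real.log_pos (by norm_num)
    rw [← div_eq_inv_mul, le_div_iff₀ (by positivity)]
    push_cast
    have h7 : (4 : ℝ) ^ (j + 1) = 4 * ((2 : ℝ) ^ j * 2 ^ j) := by
      rw [pow_succ, ← mul_pow]; norm_num; ring
    have h8 : (1 : ℝ) ≤ 2 ^ j := one_le_pow₀ (by norm_num)
    rw [h7] at h4
    have h9 : 1 ≤ (2 : ℝ) ^ j * 2 ^ j := by nlinarith
    have h10 : 0 ≤ Real.log 2 * ((2 : ℝ) ^ j * 2 ^ j - 1) :=
      mul_nonneg hl2.le (by linarith)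
    nlinarith
  refine ⟨key, fun hW => ?_⟩
  have h0 : Tendsto (fun k : ℕ => (2 * (k : ℝ))⁻¹ * Real.log (B k 0)) atTop
      (𝓝 (Real.posLog ‖(0 : ℂ)‖)) :=
    (tendstoLocallyUniformlyOn_univ.2 hW).tendsto_at (Set.mem_univ 0)
  rw [norm_zero, Real.posLog_zero] at h0
  have h1 : Tendsto (fun j : ℕ => 2 ^ j) atTop atTop :=
    tendsto_pow_atTop_atTop_of_one_lt one_lt_two
  have h2 := h0.comp h1
  have hl2 : 0 < Real.log 2 := Real.log_pos (by norm_num)
  have h3 : ∀ j : ℕ, Real.log 2 / 2 ≤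
      ((fun k : ℕ => (2 * (k : ℝ))⁻¹ * Real.log (B k 0)) ∘ fun j : ℕ => 2 ^ j) j := by
    intro j
    refine le_trans ?_ (key j)
    have h8 : (1 : ℝ) ≤ 2 ^ j := one_le_pow₀ (by norm_num)
    nlinarith
  have h4 := ge_of_tendsto' h2 h3
  linarith

end Pool.Agent.Run7.h951.BG
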