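import Pool.Agent.Run7.h951.BG.Stm

/-!
# Project BG, piece ONB: Gram-Schmidt in `L²(ν)`
-/

set_option autoImplicit false

open MeasureTheory Filter Topology Polynomial

namespace Pool.Agent.Run7.h951.BG

namespace Onb

lemma integ {F : Type*} [NormedAddCommGroup F] (ν : Measure ℂ) (hfin : IsFiniteMeasure ν)
    (hsph : ν (Metric.sphere (0 : ℂ) 1)ᶜ = 0) (f : ℂ → F) (hf : Continuous f) :
    Integrable f ν := by
  obtain ⟨C, hC⟩ := (isCompact_sphere (0 : ℂ) 1).exists_bound_of_continuousOn hf.continuousOn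
  refine Integrable.of_bound hf.aestronglyMeasurable C ?_
  have h1 : ∀ᵐ z ∂ν, z ∈ Metric.sphere (0 : ℂ) 1 := by
    rw [ae_iff]; exact hsph
  filter_upwards [h1] with z hz using hC z hz

lemma exists_onb {V : Type*} [AddCommGroup V] [Module ℂ V] [FiniteDimensional ℂ V]
    (c : InnerProductSpace.Core ℂ V) (m : ℕ) (hm : Module.finrank ℂ V = m) :
    ∃ b : Fin m → V, (∀ i j, c.inner (b i) (b j) = if i = j then 1 else 0) ∧
      Submodule.span ℂ (Set.range b) = ⊤ := by
  subst hm
  let _ : NormedAddCommGroup V := c.toNormedAddCommGroup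
  let _ : InnerProductSpace ℂ V := InnerProductSpace.ofCore c.toCore
  let B := stdOrthonormalBasis ℂ V
  refine ⟨B, fun i j => ?_, ?_⟩
  · exact orthonormal_iff_ite.1 B.orthonormal i j
  · have h := B.toBasis.span_eq
    rwa [OrthonormalBasis.coe_toBasis] at h

lemma inner_self_eq (ν : Measure ℂ) (p : ℂ[X]) :
    ∫ z, (starRingEnd ℂ) (p.eval z) * p.eval z ∂ν =
      ((∫ z, ‖p.eval z‖ ^ 2 ∂ν : ℝ) : ℂ) := by
  rw [← integral_complex_ofReal]
  refine integral_congr_ae (Filter.Eventually.of_forall fun z => ?_)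
  show (starRingEnd ℂ) (p.eval z) * p.eval z = ((‖p.eval z‖ ^ 2 : ℝ) : ℂ)
  rw [mul_comm, Complex.mul_conj', Complex.ofReal_pow]

/-- the inner product of `L²(ν)` on a space of polynomials -/
noncomputable def core (ν : Measure ℂ) (hfin : IsFiniteMeasure ν)
    (hsph : ν (Metric.sphere (0 : ℂ) 1)ᶜ = 0)
    (hpos : ∀ p : ℂ[X], p ≠ 0 → 0 < ∫ z, ‖p.eval z‖ ^ 2 ∂ν) (E : Submodule ℂ ℂ[X]) :
    InnerProductSpace.Core ℂ E where
  inner p q := ∫ z, (starRingEnd ℂ) ((p : ℂ[X]).eval z) * (q : ℂ[X]).eval z ∂ν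
  conj_inner_symm p q := by
    rw [← integral_conj]
    refine integral_congr_ae (Filter.Eventually.of_forall fun z => ?_)
    simp [mul_comm]
  re_inner_nonneg p := by
    rw [inner_self_eq, RCLike.re_eq_complex_re, Complex.ofReal_re]
    exact integral_nonneg fun z => sq_nonneg _
  add_left p q r := by
    rw [← integral_add]
    · refine integral_congr_ae (Filter.Eventually.of_forall fun z => ?_)
      simp [add_mul]
    · exact integ ν hfin hsph _ ((Complex.continuous_conj.comp (p : ℂ[X]).continuous).mul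
        (r : ℂ[X]).continuous)
    · exact integ ν hfin hsph _ ((Complex.continuous_conj.comp (q : ℂ[X]).continuous).mul
        (r : ℂ[X]).continuous)
  smul_left p q c := by
    rw [← integral_const_mul]
    refine integral_congr_ae (Filter.Eventually.of_forall fun z => ?_)
    simp [mul_assoc]
  definite p hp := by
    by_contra hne
    have h1 : (p : ℂ[X]) ≠ 0 := fun h => hne (Subtype.ext h)
    have h2 := hpos p h1
    rw [inner_self_eq, Complex.ofReal_eq_zero] at hp
    linarith

end Onb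

open Onb in
theorem t_ONB : S_ONB := by
  intro ν hfin hsph hpos E m hE hm
  obtain ⟨b, hb, hspan⟩ := exists_onb (core ν hfin hsph hpos E) m hm
  refine ⟨fun i => (b i : ℂ[X]), fun i => (b i).2, ?_, ?_⟩
  · intro i j
    have h1 := hb j i
    have h2 : (core ν hfin hsph hpos E).inner (b j) (b i) =
        ∫ z, (starRingEnd ℂ) ((b j : ℂ[X]).eval z) * (b i : ℂ[X]).eval z ∂ν := rfl
    rw [h2] at h1
    rw [show (∫ z, (b i : ℂ[X]).eval z * (starRingEnd ℂ) ((b j : ℂ[X]).eval z) ∂ν) =
      ∫ z, (starRingEnd ℂ) ((b j : ℂ[X]).eval z) * (b i : ℂ[X]).eval z ∂ν from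
        integral_congr_ae (Filter.Eventually.of_forall fun z => mul_comm _ _), h1]
    by_cases hij : i = j
    · rw [if_pos hij, if_pos hij.symm]
    · rw [if_neg hij, if_neg (fun h => hij h.symm)]
  · have h1 : Set.range (fun i => (b i : ℂ[X])) = E.subtype '' Set.range b := by
      rw [← Set.range_comp]
      rfl
    rw [h1, Submodule.span_image, hspan, Submodule.map_top, Submodule.range_subtype]

end Pool.Agent.Run7.h951.BG
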