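import Pool.Agent.Run7.h951.BG.Stm

/-!
# Project BG, piece PD: positivity
-/

set_option autoImplicit false

open MeasureTheory Filter Topology Polynomial

namespace Pool.Agent.Run7.h951.BG

namespace Pd

lemma integ_of_cont' {F : Type*} [NormedAddCommGroup F] (ν : Measure ℂ) (hfin : IsFiniteMeasure ν)
    (hsph : ν (Metric.sphere (0 : ℂ) 1)ᶜ = 0) (f : ℂ → F) (hf : Continuous f) :
    Integrable f ν := by
  obtain ⟨C, hC⟩ := (isCompact_sphere (0 : ℂ) 1).exists_bound_of_continuousOn hf.continuousOn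
  refine Integrable.of_bound hf.aestronglyMeasurable C ?_
  have h1 : ∀ᵐ z ∂ν, z ∈ Metric.sphere (0 : ℂ) 1 := by
    rw [ae_iff]; exact hsph
  filter_upwards [h1] with z hz using hC z hz

end Pd

open Pd in
theorem t_PD : S_ROOT → S_PD := by
  intro hR ν hν p hp
  obtain ⟨-, hcard, -, -, -, -⟩ := hR
  obtain ⟨hfin, hsph, hat, -, -⟩ := hν
  -- a root of unity which is not a root of `p`
  obtain ⟨ζ, hζ, hpζ⟩ : ∃ ζ ∈ Rt p.natDegree, p.eval ζ ≠ 0 := by
    by_contra hcon
    push Not at hcon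
    have h1 : Rt p.natDegree ⊆ p.roots.toFinset := by
      intro ζ hζ
      rw [Multiset.mem_toFinset, mem_roots hp]
      exact hcon ζ hζ
    have h2 := (Finset.card_le_card h1).trans (p.roots.toFinset_card_le.trans p.card_roots')
    rw [hcard] at h2
    exact absurd h2 (not_le.2 p.natDegree.lt_two_pow_self)
  have hint : Integrable (fun z => ‖p.eval z‖ ^ 2) ν :=
    integ_of_cont' ν hfin hsph _ (p.continuous.norm.pow 2)
  have h1 : ∫ z in ({ζ} : Set ℂ), ‖p.eval z‖ ^ 2 ∂ν ≤ ∫ z, ‖p.eval z‖ ^ 2 ∂ν :=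
    setIntegral_le_integral hint (Filter.Eventually.of_forall fun z => sq_nonneg _)
  rw [integral_singleton, smul_eq_mul] at h1
  have h2 : 0 < cw p.natDegree / 2 ^ p.natDegree := by
    unfold cw; positivity
  have h3 : 0 < ν.real {ζ} := lt_of_lt_of_le h2 (hat _ ζ hζ)
  have h4 : 0 < ‖p.eval ζ‖ ^ 2 := by
    have := norm_pos_iff.2 hpζ
    positivity
  exact lt_of_lt_of_le (mul_pos h3 h4) h1

end Pool.Agent.Run7.h951.BG
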